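import Pool.Agent.Y744.NB.Stm

/-!
# NB-MASS: local mass bound (job of helper744's project NB, MP_360b3f_an)
-/

set_option autoImplicit false
open MeasureTheory Set Filter Topology Metric
open scoped ContDiff
namespace Pool.Agent.Y4.NB.MASS
open Pool.Agent.Y744.NB

variable {N : ℕ}

/-! ### Laplacian -/

lemma lap_formula (φ : E N → ℝ) : Laplacian.laplacian φ = fun x =>
    ∑ i, iteratedFDeriv ℝ 2 φ x
      ![(stdOrthonormalBasis ℝ (E N)) i, (stdOrthonormalBasis ℝ (E N)) i] :=
  InnerProductSpace.laplacian_eq_iteratedFDeriv_stdOrthonormalBasis φ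

lemma lap_cont {φ : E N → ℝ} (h : ContDiff ℝ ∞ φ) :
    Continuous (Laplacian.laplacian φ) := by
  rw [lap_formula]
  refine continuous_finsetSum _ fun i _ => ?_
  have h2 : Continuous (iteratedFDeriv ℝ 2 φ) :=
    h.continuous_iteratedFDeriv (m := 2) (WithTop.coe_le_coe.2 le_top)
  exact (ContinuousMultilinearMap.apply ℝ (fun _ : Fin 2 => E N) ℝ
    ![(stdOrthonormalBasis ℝ (E N)) i, (stdOrthonormalBasis ℝ (E N)) i]).continuous.comp h2

lemma lap_supp {φ : E N → ℝ} (hs : HasCompactSupport φ) :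
    HasCompactSupport (Laplacian.laplacian φ) := by
  refine HasCompactSupport.of_support_subset_isCompact (hs.iteratedFDeriv (𝕜 := ℝ) 2) ?_
  intro x hx
  by_contra hx'
  apply hx
  rw [lap_formula]
  have : iteratedFDeriv ℝ 2 φ x = 0 := image_eq_zero_of_notMem_tsupport hx'
  simp [this]

lemma lap_sub (φ : E N → ℝ) (z x : E N) :
    Laplacian.laplacian (fun y => φ (y - z)) x = Laplacian.laplacian φ (x - z) := by
  rw [lap_formula, lap_formula]
  simp only
  refine Finset.sum_congr rfl fun i _ => ?_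
  rw [iteratedFDeriv_comp_sub]

/-! ### Bounded measurable functions -/

lemma ii_of_bdd {g : ℝ → ℝ} (hg : Measurable g) {T t C : ℝ} (ht : t ∈ Icc 0 T)
    (hb : ∀ s ∈ Icc 0 T, |g s| ≤ C) : IntervalIntegrable g volume 0 t := by
  rw [intervalIntegrable_iff_integrableOn_Ioc_of_le ht.1]
  refine Measure.integrableOn_of_bounded (M := C) (by simp) hg.aestronglyMeasurable ?_
  filter_upwards [ae_restrict_mem measurableSet_Ioc] with s hs
  exact hb s ⟨hs.1.le, hs.2.trans ht.2⟩

lemma prod_int {G : ℝ → E N → ℝ} (hG : Measurable (Function.uncurry G)) {T t C : ℝ}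
    (ht : t ∈ Icc 0 T) (hb : ∀ s ∈ Icc 0 T, ∀ x, |G s x| ≤ C) {S : Set (E N)}
    (hS : MeasurableSet S) (hSf : volume S ≠ ⊤) :
    Integrable (Function.uncurry G) ((volume.restrict (Ioc 0 t)).prod (volume.restrict S)) := by
  rw [Measure.prod_restrict]
  refine Measure.integrableOn_of_bounded (M := C) ?_ hG.aestronglyMeasurable ?_
  · rw [Measure.prod_prod]
    exact ENNReal.mul_ne_top (by simp) hSf
  · filter_upwards [ae_restrict_mem (measurableSet_Ioc.prod hS)] with p hp
    exact hb p.1 ⟨hp.1.1.le, hp.1.2.trans ht.2⟩ p.2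

lemma swap {G : ℝ → E N → ℝ} (hG : Measurable (Function.uncurry G)) {T t C : ℝ}
    (ht : t ∈ Icc 0 T) (hb : ∀ s ∈ Icc 0 T, ∀ x, |G s x| ≤ C) {S : Set (E N)}
    (hS : MeasurableSet S) (hSf : volume S ≠ ⊤) :
    ∫ x in S, ∫ s in (0:ℝ)..t, G s x = ∫ s in (0:ℝ)..t, ∫ x in S, G s x := by
  simp only [intervalIntegral.integral_of_le ht.1]
  exact (integral_integral_swap (prod_int hG ht hb hS hSf)).symm

lemma intOn {G : ℝ → E N → ℝ} (hG : Measurable (Function.uncurry G)) {T t C : ℝ}
    (ht : t ∈ Icc 0 T) (hb : ∀ s ∈ Icc 0 T, ∀ x, |G s x| ≤ C) {S : Set (E N)}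
    (hS : MeasurableSet S) (hSf : volume S ≠ ⊤) :
    IntegrableOn (fun x => ∫ s in (0:ℝ)..t, G s x) S := by
  simp only [intervalIntegral.integral_of_le ht.1]
  exact (prod_int hG ht hb hS hSf).integral_prod_right

/-! ### Convolution with the kernel -/

section K
variable {K : E N → ℝ}

lemma Kint (hK : Ker K) : Integrable K := hK.cont.integrable_of_hasCompactSupport hK.supp

lemma Kv_meas (hK : Ker K) {u : ℝ → E N → ℝ} (hu : Measurable (Function.uncurry u)) :
    Measurable (Function.uncurry fun s x => ∫ y, K y * u s (x - y)) := by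
  have h : StronglyMeasurable (fun p : (ℝ × E N) × E N => K p.2 * u p.1.1 (p.1.2 - p.2)) :=
    (Measurable.mul (hK.cont.measurable.comp measurable_snd)
      (hu.comp (measurable_fst.fst.prodMk
        (measurable_fst.snd.sub measurable_snd)))).stronglyMeasurable
  exact h.integral_prod_right'.measurable

lemma Kv_nonneg (hK : Ker K) {w : E N → ℝ} (h0 : ∀ x, 0 ≤ w x) (x : E N) :
    0 ≤ ∫ y, K y * w (x - y) :=
  integral_nonneg fun y => mul_nonneg (hK.nonneg y) (h0 _)

lemma Kv_le (hK : Ker K) {w : E N → ℝ} {M : ℝ} (h0 : ∀ x, 0 ≤ w x) (hM : ∀ x, w x ≤ M)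
    (x : E N) : ∫ y, K y * w (x - y) ≤ (∫ y, K y) * M := by
  rw [← integral_mul_const]
  refine integral_mono_of_nonneg (ae_of_all _ fun y => mul_nonneg (hK.nonneg y) (h0 _))
    ((Kint hK).mul_const M) (ae_of_all _ fun y => ?_)
  exact mul_le_mul_of_nonneg_left (hM _) (hK.nonneg y)

lemma ball_sub (w : E N → ℝ) (z y : E N) (ρ : ℝ) :
    ∫ x in closedBall z ρ, w (x - y) = ∫ x in closedBall (z - y) ρ, w x := by
  have h := (measurePreserving_sub_right (volume : Measure (E N)) y).setIntegral_preimage_emb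
    (MeasurableEquiv.subRight y).measurableEmbedding w (closedBall (z - y) ρ)
  have h2 : (fun x => x - y) ⁻¹' closedBall (z - y) ρ = closedBall z ρ := by
    ext x
    simp [mem_closedBall]
  rw [← h, h2]

lemma Kv_ball (hK : Ker K) {w : E N → ℝ} {M m : ℝ} (hw : Measurable w) (h0 : ∀ x, 0 ≤ w x)
    (hM : ∀ x, w x ≤ M) (z : E N) {ρ : ℝ} (hm : ∀ z, ∫ x in closedBall z ρ, w x ≤ m) :
    ∫ x in closedBall z ρ, ∫ y, K y * w (x - y) ≤ (∫ y, K y) * m := by
  have hi : Integrable (Function.uncurry fun x y => K y * w (x - y))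
      ((volume.restrict (closedBall z ρ)).prod volume) := by
    have : IsFiniteMeasure (volume.restrict (closedBall z ρ)) :=
      ⟨by simpa using measure_closedBall_lt_top⟩
    have h1 : Integrable (fun p : E N × E N => (fun _ => M) p.1 * K p.2)
        ((volume.restrict (closedBall z ρ)).prod volume) :=
      Integrable.mul_prod (integrable_const M) (Kint hK)
    refine h1.mono' ?_ (ae_of_all _ fun p => ?_)
    · exact (Measurable.mul (hK.cont.measurable.comp measurable_snd)
        (hw.comp (measurable_fst.sub measurable_snd))).aestronglyMeasurable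
    · change |K p.2 * w (p.1 - p.2)| ≤ M * K p.2
      rw [abs_of_nonneg (mul_nonneg (hK.nonneg _) (h0 _)), mul_comm]
      exact mul_le_mul_of_nonneg_right (hM _) (hK.nonneg _)
  rw [integral_integral_swap hi, ← integral_mul_const]
  refine integral_mono_of_nonneg
    (ae_of_all _ fun y => integral_nonneg fun x => mul_nonneg (hK.nonneg y) (h0 _))
    ((Kint hK).mul_const m) (ae_of_all _ fun y => ?_)
  change ∫ x in closedBall z ρ, K y * w (x - y) ≤ K y * m
  rw [integral_const_mul, ball_sub]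
  exact mul_le_mul_of_nonneg_left (hm _) (hK.nonneg y)

lemma ball_intOn {w : E N → ℝ} {M : ℝ} (hw : Measurable w) (h0 : ∀ x, 0 ≤ w x)
    (hM : ∀ x, w x ≤ M) (z : E N) (ρ : ℝ) : IntegrableOn w (closedBall z ρ) := by
  refine Measure.integrableOn_of_bounded (M := M) measure_closedBall_lt_top.ne
    hw.aestronglyMeasurable (ae_of_all _ fun x => ?_)
  rw [Real.norm_of_nonneg (h0 x)]
  exact hM x

lemma Kv_loc (hK : Ker K) {w : E N → ℝ} {M Kb ρ : ℝ} (hw : Measurable w) (h0 : ∀ x, 0 ≤ w x)
    (hM : ∀ x, w x ≤ M) (hKb : ∀ x, K x ≤ Kb) (hρ : tsupport K ⊆ closedBall 0 ρ) (x : E N) :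
    ∫ y, K y * w (x - y) ≤ Kb * ∫ y in closedBall x ρ, w y := by
  have h1 : ∫ y, K y * w (x - y) = ∫ y, K (x - y) * w y := by
    rw [← integral_sub_left_eq_self (fun y => K y * w (x - y)) volume x]
    simp
  rw [h1, ← integral_const_mul, ← integral_indicator measurableSet_closedBall]
  have hKb0 : 0 ≤ Kb := (hK.nonneg 0).trans (hKb 0)
  refine integral_mono_of_nonneg (ae_of_all _ fun y => mul_nonneg (hK.nonneg _) (h0 _))
    (IntegrableOn.integrable_indicator ((ball_intOn hw h0 hM x ρ).const_mul Kb)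
      measurableSet_closedBall)
    (ae_of_all _ fun y => ?_)
  by_cases hy : y ∈ closedBall x ρ
  · simp only [indicator_of_mem hy]
    exact mul_le_mul_of_nonneg_right (hKb _) (h0 _)
  · simp only [indicator_of_notMem hy]
    have : K (x - y) = 0 := by
      apply image_eq_zero_of_notMem_tsupport
      intro h
      apply hy
      have := hρ h
      rw [mem_closedBall, dist_zero_right] at this
      rw [mem_closedBall, dist_comm, dist_eq_norm]
      exact this
    rw [this, zero_mul]

end K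

/-! ### The second equation -/

lemma eqv {K : E N → ℝ} {f : ℝ → ℝ} {u₀ : E N → ℝ} {T M : ℝ} {u v : ℝ → E N → ℝ}
    (hf : Continuous f) (hf0 : ∀ r, 0 ≤ f r) (h : Sol K f u₀ T M u v)
    {φ : E N → ℝ} (hφ : ContDiff ℝ ∞ φ) (hc : HasCompactSupport φ) (h0 : ∀ x, 0 ≤ φ x)
    {t : ℝ} (ht : t ∈ Icc 0 T) (z : E N) :
    ∫ s in (0:ℝ)..t, ∫ x, v s x * f (u s x) * φ (x - z)
      ≤ (∫ x, φ x) + t * ∫ x, |Laplacian.laplacian φ x| := by
  obtain ⟨F, hF⟩ := isCompact_Icc.exists_bound_of_continuousOn (s := Icc (0:ℝ) M) hf.continuousOn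
  set ψ : E N → ℝ := fun x => φ (x - z) with hψ
  have hψc : ContDiff ℝ ∞ ψ := hφ.comp (contDiff_id.sub contDiff_const)
  have hψs : HasCompactSupport ψ := by
    have := hc.comp_homeomorph (Homeomorph.subRight z)
    exact this
  have hψi : Integrable ψ := hψc.continuous.integrable_of_hasCompactSupport hψs
  have hLi : Integrable (Laplacian.laplacian ψ) :=
    (lap_cont hψc).integrable_of_hasCompactSupport (lap_supp hψs)
  have e1 : ∫ x, ψ x = ∫ x, φ x := integral_sub_right_eq_self φ z
  have e2 : ∫ x, |Laplacian.laplacian ψ x| = ∫ x, |Laplacian.laplacian φ x| := by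
    rw [← integral_sub_right_eq_self (fun x => |Laplacian.laplacian φ x|) z]
    refine integral_congr_ae (ae_of_all _ fun x => ?_)
    change |Laplacian.laplacian ψ x| = |Laplacian.laplacian φ (x - z)|
    rw [← lap_sub φ z x]
  -- measurability
  have mW : Measurable (Function.uncurry fun s x => v s x * f (u s x)) :=
    h.measurable_v.mul (hf.measurable.comp h.measurable_u)
  have mP : Measurable (fun s => ∫ x, v s x * f (u s x) * ψ x) := by
    have hh : StronglyMeasurable (fun p : ℝ × E N => v p.1 p.2 * f (u p.1 p.2) * ψ p.2) :=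
      (mW.mul (hψc.continuous.measurable.comp measurable_snd)).stronglyMeasurable
    exact hh.integral_prod_right'.measurable
  have mR : Measurable (fun s => ∫ x, (v s x * Laplacian.laplacian ψ x
      - v s x * f (u s x) * ψ x)) := by
    have hh : StronglyMeasurable (fun p : ℝ × E N => v p.1 p.2 * Laplacian.laplacian ψ p.2
        - v p.1 p.2 * f (u p.1 p.2) * ψ p.2) :=
      ((h.measurable_v.mul ((lap_cont hψc).measurable.comp measurable_snd)).sub
        (mW.mul (hψc.continuous.measurable.comp measurable_snd))).stronglyMeasurable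
    exact hh.integral_prod_right'.measurable
  have hW : ∀ s ∈ Icc 0 T, ∀ x, 0 ≤ v s x * f (u s x) ∧ v s x * f (u s x) ≤ F := by
    intro s hs x
    have hv := h.v_mem s hs x
    have hFx := hF (u s x) ⟨h.u_nonneg s hs x, h.u_le s hs x⟩
    rw [Real.norm_of_nonneg (hf0 _)] at hFx
    refine ⟨mul_nonneg hv.1 (hf0 _), ?_⟩
    calc v s x * f (u s x) ≤ 1 * f (u s x) := mul_le_mul_of_nonneg_right hv.2 (hf0 _)
      _ ≤ F := by linarith
  have ms : ∀ s : ℝ, Measurable (fun x => v s x) := fun s =>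
    h.measurable_v.comp (measurable_const.prodMk measurable_id)
  have mWs : ∀ s : ℝ, Measurable (fun x => v s x * f (u s x)) := fun s =>
    mW.comp (measurable_const.prodMk measurable_id)
  have i1 : ∀ s ∈ Icc 0 T, Integrable (fun x => v s x * f (u s x) * ψ x) := by
    intro s hs
    refine (hψi.const_mul F).mono' ((mWs s).mul hψc.continuous.measurable).aestronglyMeasurable
      (ae_of_all _ fun x => ?_)
    rw [Real.norm_of_nonneg (mul_nonneg (hW s hs x).1 (h0 _))]
    exact mul_le_mul_of_nonneg_right (hW s hs x).2 (h0 _)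
  have i2 : ∀ s ∈ Icc 0 T, Integrable (fun x => v s x * Laplacian.laplacian ψ x) := by
    intro s hs
    refine hLi.abs.mono' ((ms s).mul (lap_cont hψc).measurable).aestronglyMeasurable
      (ae_of_all _ fun x => ?_)
    rw [Real.norm_eq_abs, abs_mul, abs_of_nonneg (h.v_mem s hs x).1]
    calc v s x * |Laplacian.laplacian ψ x| ≤ 1 * |Laplacian.laplacian ψ x| :=
          mul_le_mul_of_nonneg_right (h.v_mem s hs x).2 (abs_nonneg _)
      _ = _ := one_mul _
  have bP : ∀ s ∈ Icc 0 T, |∫ x, v s x * f (u s x) * ψ x| ≤ ∫ x, F * ψ x := by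
    intro s hs
    rw [abs_of_nonneg (integral_nonneg fun x => mul_nonneg (hW s hs x).1 (h0 _))]
    refine integral_mono (i1 s hs) (hψi.const_mul F) fun x => ?_
    exact mul_le_mul_of_nonneg_right (hW s hs x).2 (h0 _)
  have bQ : ∀ s ∈ Icc 0 T, |∫ x, v s x * Laplacian.laplacian ψ x|
      ≤ ∫ x, |Laplacian.laplacian ψ x| := by
    intro s hs
    refine (abs_integral_le_integral_abs).trans ?_
    refine integral_mono (i2 s hs).abs hLi.abs fun x => ?_
    change |v s x * Laplacian.laplacian ψ x| ≤ |Laplacian.laplacian ψ x|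
    rw [abs_mul, abs_of_nonneg (h.v_mem s hs x).1]
    calc v s x * |Laplacian.laplacian ψ x| ≤ 1 * |Laplacian.laplacian ψ x| :=
          mul_le_mul_of_nonneg_right (h.v_mem s hs x).2 (abs_nonneg _)
      _ = _ := one_mul _
  have eR : ∀ s ∈ Icc 0 T, ∫ x, (v s x * Laplacian.laplacian ψ x - v s x * f (u s x) * ψ x)
      = (∫ x, v s x * Laplacian.laplacian ψ x) - ∫ x, v s x * f (u s x) * ψ x :=
    fun s hs => integral_sub (i2 s hs) (i1 s hs)
  have iP := ii_of_bdd mP ht bP
  have iR : IntervalIntegrable (fun s => ∫ x, (v s x * Laplacian.laplacian ψ x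
      - v s x * f (u s x) * ψ x)) volume 0 t := by
    refine ii_of_bdd mR ht (C := (∫ x, |Laplacian.laplacian ψ x|) + ∫ x, F * ψ x) ?_
    intro s hs
    rw [eR s hs]
    exact (abs_sub _ _).trans (add_le_add (bQ s hs) (bP s hs))
  have key := h.eq_v ψ hψc hψs t ht
  have hvt : 0 ≤ ∫ x, v t x * ψ x :=
    integral_nonneg fun x => mul_nonneg (h.v_mem t ht x).1 (h0 _)
  have mono : ∫ s in (0:ℝ)..t, ∫ x, v s x * f (u s x) * ψ x ≤
      ∫ s in (0:ℝ)..t, ((∫ x, |Laplacian.laplacian ψ x|) -
        ∫ x, (v s x * Laplacian.laplacian ψ x - v s x * f (u s x) * ψ x)) := by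
    refine intervalIntegral.integral_mono_on ht.1 iP (intervalIntegrable_const.sub iR) ?_
    intro s hs
    have hs' : s ∈ Icc 0 T := ⟨hs.1, hs.2.trans ht.2⟩
    rw [eR s hs']
    have := (abs_le.1 (bQ s hs')).2
    linarith
  rw [intervalIntegral.integral_sub intervalIntegrable_const iR,
    intervalIntegral.integral_const] at mono
  simp only [sub_zero, smul_eq_mul] at mono
  rw [← e1, ← e2]
  change ∫ s in (0:ℝ)..t, ∫ x, v s x * f (u s x) * ψ x ≤ _
  linarith

/-! ### The bound -/

lemma step {K : E N → ℝ} {f : ℝ → ℝ} {u₀ : E N → ℝ} {T M : ℝ} {u v : ℝ → E N → ℝ}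
    (hK : Ker K) (hf : Continuous f) (hf0 : ∀ r, 0 ≤ f r) (hu0 : ∀ x, 0 ≤ u₀ x)
    (hu0i : Integrable u₀) (hu01 : ∫ x, u₀ x ≤ 1) (h : Sol K f u₀ T M u v)
    {φ : E N → ℝ} (hφ : ContDiff ℝ ∞ φ) (hc : HasCompactSupport φ) (h0 : ∀ x, 0 ≤ φ x)
    {ρ : ℝ} (h1 : ∀ x ∈ closedBall (0 : E N) ρ, φ x = 1)
    {t τ m : ℝ} (ht : t ∈ Icc 0 T) (htτ : t ≤ τ) (z : E N)
    (hm : ∀ s ∈ Icc 0 T, s ≤ τ → ∀ z, ∫ x in closedBall z ρ, u s x ≤ m) :
    ∫ x in closedBall z ρ, u t x ≤
      1 + ((∫ x, φ x) + t * ∫ x, |Laplacian.laplacian φ x|) + t * ((∫ y, K y) * m) := by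
  obtain ⟨F, hF⟩ := isCompact_Icc.exists_bound_of_continuousOn (s := Icc (0:ℝ) M) hf.continuousOn
  have hk : 0 ≤ ∫ y, K y := integral_nonneg hK.nonneg
  set k := ∫ y, K y with hkdef
  have mW : Measurable (Function.uncurry fun s x => v s x * f (u s x)) :=
    h.measurable_v.mul (hf.measurable.comp h.measurable_u)
  have mC := Kv_meas hK h.measurable_u
  have hW : ∀ s ∈ Icc 0 T, ∀ x, 0 ≤ v s x * f (u s x) ∧ v s x * f (u s x) ≤ F := by
    intro s hs x
    have hv := h.v_mem s hs x
    have hFx := hF (u s x) ⟨h.u_nonneg s hs x, h.u_le s hs x⟩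
    rw [Real.norm_of_nonneg (hf0 _)] at hFx
    refine ⟨mul_nonneg hv.1 (hf0 _), ?_⟩
    calc v s x * f (u s x) ≤ 1 * f (u s x) := mul_le_mul_of_nonneg_right hv.2 (hf0 _)
      _ ≤ F := by linarith
  have hC : ∀ s ∈ Icc 0 T, ∀ x, 0 ≤ ∫ y, K y * u s (x - y) ∧
      ∫ y, K y * u s (x - y) ≤ k * M := fun s hs x =>
    ⟨Kv_nonneg hK (h.u_nonneg s hs) x, Kv_le hK (h.u_nonneg s hs) (h.u_le s hs) x⟩
  have mG : Measurable (Function.uncurry fun s x =>
      v s x * f (u s x) - nonlocalOp K (u s) x) := by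
    have := mW.sub ((h.measurable_u.const_mul k).sub mC)
    exact this
  have bG : ∀ s ∈ Icc 0 T, ∀ x, |v s x * f (u s x) - nonlocalOp K (u s) x| ≤ F + k * M := by
    intro s hs x
    have a1 := hW s hs x
    have a2 := hC s hs x
    have a3 : 0 ≤ k * u s x := mul_nonneg hk (h.u_nonneg s hs x)
    have a4 : k * u s x ≤ k * M := mul_le_mul_of_nonneg_left (h.u_le s hs x) hk
    unfold nonlocalOp
    rw [← hkdef, abs_le]
    constructor <;> linarith
  have hB : MeasurableSet (closedBall z ρ) := measurableSet_closedBall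
  have hBf : volume (closedBall z ρ) ≠ ⊤ := measure_closedBall_lt_top.ne
  have us : ∀ s : ℝ, Measurable (fun x => u s x) := fun s =>
    h.measurable_u.comp (measurable_const.prodMk measurable_id)
  have ws : ∀ s : ℝ, Measurable (fun x => v s x * f (u s x)) := fun s =>
    mW.comp (measurable_const.prodMk measurable_id)
  have cs : ∀ s : ℝ, Measurable (fun x => ∫ y, K y * u s (x - y)) := fun s =>
    mC.comp (measurable_const.prodMk measurable_id)
  -- step 1
  have s1 : ∫ x in closedBall z ρ, u t x = (∫ x in closedBall z ρ, u₀ x) +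
      ∫ s in (0:ℝ)..t, ∫ x in closedBall z ρ, (v s x * f (u s x) - nonlocalOp K (u s) x) := by
    rw [← swap mG ht bG hB hBf, ← integral_add hu0i.integrableOn (intOn mG ht bG hB hBf)]
    exact integral_congr_ae (ae_restrict_of_ae (h.eq_u t ht))
  have s2 : ∫ x in closedBall z ρ, u₀ x ≤ 1 :=
    (setIntegral_le_integral hu0i (ae_of_all _ hu0)).trans hu01
  have mP : Measurable (fun s => ∫ x, v s x * f (u s x) * φ (x - z)) := by
    have hh : StronglyMeasurable (fun p : ℝ × E N => v p.1 p.2 * f (u p.1 p.2) * φ (p.2 - z)) :=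
      (mW.mul (hφ.continuous.measurable.comp (measurable_snd.sub_const z))).stronglyMeasurable
    exact hh.integral_prod_right'.measurable
  have hψi : Integrable (fun x => φ (x - z)) :=
    (hφ.continuous.integrable_of_hasCompactSupport hc).comp_sub_right z
  have i1 : ∀ s ∈ Icc 0 T, Integrable (fun x => v s x * f (u s x) * φ (x - z)) := by
    intro s hs
    refine (hψi.const_mul F).mono' ((ws s).mul (hφ.continuous.measurable.comp
      (measurable_id.sub_const z))).aestronglyMeasurable (ae_of_all _ fun x => ?_)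
    rw [Real.norm_of_nonneg (mul_nonneg (hW s hs x).1 (h0 _))]
    exact mul_le_mul_of_nonneg_right (hW s hs x).2 (h0 _)
  have bP : ∀ s ∈ Icc 0 T, |∫ x, v s x * f (u s x) * φ (x - z)| ≤ ∫ x, F * φ (x - z) := by
    intro s hs
    rw [abs_of_nonneg (integral_nonneg fun x => mul_nonneg (hW s hs x).1 (h0 _))]
    refine integral_mono (i1 s hs) (hψi.const_mul F) fun x => ?_
    exact mul_le_mul_of_nonneg_right (hW s hs x).2 (h0 _)
  have iP := ii_of_bdd mP ht bP
  -- the inner bound
  have s3 : ∀ s ∈ Icc 0 t, ∫ x in closedBall z ρ, (v s x * f (u s x) - nonlocalOp K (u s) x) ≤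
      (∫ x, v s x * f (u s x) * φ (x - z)) + k * m := by
    intro s hs
    have hs' : s ∈ Icc 0 T := ⟨hs.1, hs.2.trans ht.2⟩
    have j1 : IntegrableOn (fun x => v s x * f (u s x)) (closedBall z ρ) :=
      ball_intOn (ws s) (fun x => (hW s hs' x).1) (fun x => (hW s hs' x).2) z ρ
    have j2 : IntegrableOn (fun x => ∫ y, K y * u s (x - y)) (closedBall z ρ) :=
      ball_intOn (cs s) (fun x => (hC s hs' x).1) (fun x => (hC s hs' x).2) z ρ
    have j3 : IntegrableOn (fun x => v s x * f (u s x) - nonlocalOp K (u s) x)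
        (closedBall z ρ) := by
      refine Measure.integrableOn_of_bounded (M := F + k * M) hBf
        (mG.comp (measurable_const.prodMk measurable_id)).aestronglyMeasurable
        (ae_of_all _ fun x => ?_)
      exact bG s hs' x
    have l1 : ∫ x in closedBall z ρ, (v s x * f (u s x) - nonlocalOp K (u s) x) ≤
        ∫ x in closedBall z ρ, (v s x * f (u s x) + ∫ y, K y * u s (x - y)) := by
      refine setIntegral_mono_on j3 (j1.add j2) hB fun x _ => ?_
      have a3 : 0 ≤ k * u s x := mul_nonneg hk (h.u_nonneg s hs' x)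
      unfold nonlocalOp
      rw [← hkdef]
      linarith
    have l2 : ∫ x in closedBall z ρ, (v s x * f (u s x) + ∫ y, K y * u s (x - y)) =
        (∫ x in closedBall z ρ, v s x * f (u s x)) +
          ∫ x in closedBall z ρ, ∫ y, K y * u s (x - y) := integral_add j1 j2
    have l3 : ∫ x in closedBall z ρ, v s x * f (u s x) ≤
        ∫ x, v s x * f (u s x) * φ (x - z) := by
      rw [← integral_indicator hB]
      refine integral_mono (j1.integrable_indicator hB) (i1 s hs') fun x => ?_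
      by_cases hx : x ∈ closedBall z ρ
      · have : φ (x - z) = 1 := h1 _ (by
          rw [mem_closedBall, dist_zero_right, ← dist_eq_norm]; exact hx)
        simp only [indicator_of_mem hx, this, mul_one, le_refl]
      · simp only [indicator_of_notMem hx]
        exact mul_nonneg (hW s hs' x).1 (h0 _)
    have l4 := Kv_ball hK (us s) (h.u_nonneg s hs') (h.u_le s hs') z
      (hm s hs' (hs.2.trans htτ))
    rw [← hkdef] at l4
    linarith
  have s4 : ∫ s in (0:ℝ)..t, ∫ x in closedBall z ρ,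
      (v s x * f (u s x) - nonlocalOp K (u s) x) ≤
      ∫ s in (0:ℝ)..t, ((∫ x, v s x * f (u s x) * φ (x - z)) + k * m) := by
    refine intervalIntegral.integral_mono_on ht.1 ?_ (iP.add intervalIntegrable_const) s3
    rw [intervalIntegrable_iff_integrableOn_Ioc_of_le ht.1]
    exact (prod_int mG ht bG hB hBf).integral_prod_left
  rw [intervalIntegral.integral_add iP intervalIntegrable_const,
    intervalIntegral.integral_const] at s4
  simp only [sub_zero, smul_eq_mul] at s4
  have s5 := eqv hf hf0 h hφ hc h0 ht z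
  linarith

theorem t : S_MASS := by
  intro N K hK
  obtain ⟨Kb, hKb⟩ := hK.cont.bounded_above_of_compact_support hK.supp
  obtain ⟨r, hr⟩ := (hK.supp : IsCompact (tsupport K)).isBounded.subset_closedBall (0 : E N)
  set ρ : ℝ := max r 1 with hρ
  have hρ0 : 0 < ρ := lt_of_lt_of_le one_pos (le_max_right _ _)
  have hsupp : tsupport K ⊆ closedBall 0 ρ := hr.trans (closedBall_subset_closedBall (le_max_left _ _))
  have hKb' : ∀ x, K x ≤ Kb := fun x => (le_abs_self _).trans (hKb x)
  have hKb0 : 0 ≤ Kb := (hK.nonneg 0).trans (hKb' 0)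
  let φ : ContDiffBump (0 : E N) := ⟨ρ, ρ + 1, hρ0, by linarith⟩
  have hφc : ContDiff ℝ ∞ φ := φ.contDiff
  have hφs : HasCompactSupport φ := φ.hasCompactSupport
  have hφ0 : ∀ x, 0 ≤ φ x := fun x => φ.nonneg
  have hφ1 : ∀ x ∈ closedBall (0 : E N) ρ, φ x = 1 := fun x hx => φ.one_of_mem_closedBall hx
  have hk : 0 ≤ ∫ y, K y := integral_nonneg hK.nonneg
  set k := ∫ y, K y with hkdef
  set a := ∫ x, φ x with ha
  set b := ∫ x, |Laplacian.laplacian (φ : E N → ℝ) x| with hb
  have ha0 : 0 ≤ a := integral_nonneg hφ0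
  have hb0 : 0 ≤ b := integral_nonneg fun x => abs_nonneg _
  set τ₀ : ℝ := min 1 (1 / (2 * (k + 1))) with hτ
  have hτ0 : 0 < τ₀ := lt_min one_pos (by positivity)
  have hτ1 : τ₀ ≤ 1 := min_le_left _ _
  have hτk : τ₀ * k ≤ 1 / 2 := by
    have h1 : τ₀ ≤ 1 / (2 * (k + 1)) := min_le_right _ _
    calc τ₀ * k ≤ 1 / (2 * (k + 1)) * k := mul_le_mul_of_nonneg_right h1 hk
      _ = (k / (k + 1)) / 2 := by field_simp
      _ ≤ 1 / 2 := by
        have : k / (k + 1) ≤ 1 := by
          rw [div_le_one (by positivity)]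
          linarith
        linarith
  refine ⟨Kb * (2 * (1 + (a + b))) + 1, τ₀, by positivity, hτ0, ?_⟩
  intro f u₀ T M u v hf hf0 _ hu0 hu0i hu01 h t ht htτ x
  have us : ∀ s : ℝ, Measurable (fun x => u s x) := fun s =>
    h.measurable_u.comp (measurable_const.prodMk measurable_id)
  have hM0 : 0 ≤ M := (h.u_nonneg t ht 0).trans (h.u_le t ht 0)
  -- the set of local masses
  let A : Set ℝ := {c | ∃ s ∈ Icc 0 T, s ≤ τ₀ ∧ ∃ z, c = ∫ x in closedBall z ρ, u s x}
  have hvol : ∀ z : E N, volume.real (closedBall z ρ) = volume.real (closedBall (0 : E N) ρ) := by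
    intro z
    simp only [Measure.real, Measure.addHaar_closedBall_center]
  have hAb : BddAbove A := by
    refine ⟨M * volume.real (closedBall (0 : E N) ρ), ?_⟩
    rintro c ⟨s, hs, _, z, rfl⟩
    have : ∫ x in closedBall z ρ, u s x ≤ ∫ x in closedBall z ρ, M := by
      refine setIntegral_mono_on (ball_intOn (us s) (h.u_nonneg s hs) (h.u_le s hs) z ρ) ?_
        measurableSet_closedBall fun x _ => h.u_le s hs x
      exact integrableOn_const measure_closedBall_lt_top.ne
    refine this.trans ?_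
    rw [setIntegral_const, hvol, smul_eq_mul, mul_comm]
  have hAne : A.Nonempty := ⟨_, t, ht, htτ, x, rfl⟩
  have hAm : ∀ s ∈ Icc 0 T, s ≤ τ₀ → ∀ z, ∫ x in closedBall z ρ, u s x ≤ sSup A :=
    fun s hs hsτ z => le_csSup hAb ⟨s, hs, hsτ, z, rfl⟩
  have hA0 : 0 ≤ sSup A := (integral_nonneg (h.u_nonneg t ht)).trans (hAm t ht htτ x)
  have hsup : sSup A ≤ 1 + (a + b) + sSup A / 2 := by
    refine csSup_le hAne ?_
    rintro c ⟨s, hs, hsτ, z, rfl⟩
    have h1 := step hK hf hf0 hu0 hu0i hu01 h hφc hφs hφ0 hφ1 hs hsτ z hAm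
    rw [← hkdef, ← ha, ← hb] at h1
    have h2 : s * b ≤ b := by
      calc s * b ≤ 1 * b := mul_le_mul_of_nonneg_right (hsτ.trans hτ1) hb0
        _ = b := one_mul b
    have h3 : s * (k * sSup A) ≤ sSup A / 2 := by
      calc s * (k * sSup A) = (s * k) * sSup A := by ring
        _ ≤ (1 / 2) * sSup A := by
          refine mul_le_mul_of_nonneg_right ?_ hA0
          exact (mul_le_mul_of_nonneg_right hsτ hk).trans hτk
        _ = sSup A / 2 := by ring
    linarith
  have hfin : sSup A ≤ 2 * (1 + (a + b)) := by linarith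
  have hloc := Kv_loc hK (us t) (h.u_nonneg t ht) (h.u_le t ht) hKb' hsupp x
  calc ∫ y, K y * u t (x - y) ≤ Kb * ∫ y in closedBall x ρ, u t y := hloc
    _ ≤ Kb * (2 * (1 + (a + b))) :=
      mul_le_mul_of_nonneg_left ((hAm t ht htτ x).trans hfin) hKb0
    _ ≤ Kb * (2 * (1 + (a + b))) + 1 := by linarith

end Pool.Agent.Y4.NB.MASS
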